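import Pool.Agent.Helper35.NW.ZD2

/-! Infinite grids of connectors, and `U5` (helper80, helper88): a finitely generated normal subgroup of
infinite index with commuting independent elements. -/

set_option autoImplicit false

namespace Pool.Agent.Helper41.UN5

open Pool.Agent.Helper52.Wq2
open Pool.Agent.Helper61.NW
open Pool.Agent.Helper35.NW

universe u

theorem grid {V : Type u} {G : SimpleGraph V} (L M : ℕ → Set V) (C : ℕ → ℕ → Set V)
    (hL : ∀ i, Conn G (L i)) (hM : ∀ i, Conn G (M i)) (hC : ∀ i j, Conn G (C i j))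
    (hLL : ∀ i j x, x ∈ L i → x ∈ L j → i = j)
    (hMM : ∀ i j x, x ∈ M i → x ∈ M j → i = j)
    (hLM : ∀ i j x, x ∈ L i → x ∉ M j)
    (hCL : ∀ i j k x, x ∈ C i j → x ∈ L k → k = i)
    (hCM : ∀ i j k x, x ∈ C i j → x ∈ M k → k = j)
    (hCC : ∀ i j k l x, x ∈ C i j → x ∈ C k l → i = k ∧ j = l)
    (p q : ℕ → ℕ → V) (hpL : ∀ i j, p i j ∈ L i) (hpC : ∀ i j, p i j ∈ C i j)
    (hqC : ∀ i j, q i j ∈ C i j) (hqM : ∀ i j, q i j ∈ M j) : KN G := by
  have hcut := fun i j => cut (hC i j) (T := M j) (hpC i j) (hLM i j _ (hpL i j)) (hqC i j)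
    (hqM i j)
  choose A hA1 hA2 hA3 hA4 hA5 using hcut
  let B : ℕ → Set V := fun i => (L i ∪ C i i) ∪ M i
  have hB : ∀ i, Conn G (B i) := fun i =>
    union_meet (union_meet (hL i) (hC i i) (hpL i i) (hpC i i)) (hM i) (Or.inr (hqC i i))
      (hqM i i)
  let φ : ℕ → Set V := fun i => B i ∪ ⋃ j : {j : ℕ // i < j}, A i j.1
  have hBA : ∀ i k j x, k < j → x ∈ B i → x ∈ A k j → i = k := by
    intro i k j x hkj hx hxA
    rcases hx with (hx | hx) | hx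
    · exact hCL k j i x (hA1 k j hxA) hx
    · exact (hCC i i k j x hx (hA1 k j hxA)).1
    · have := hCM k j i x (hA1 k j hxA) hx
      subst this
      exact absurd hx (hA3 k i x hxA)
  have hBB : ∀ i k x, x ∈ B i → x ∈ B k → i = k := by
    intro i k x hx hy
    rcases hx with (hx | hx) | hx <;> rcases hy with (hy | hy) | hy
    · exact hLL i k x hx hy
    · exact hCL k k i x hy hx
    · exact absurd hy (hLM i k x hx)
    · exact (hCL i i k x hx hy).symm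
    · exact (hCC i i k k x hx hy).1
    · exact (hCM i i k x hx hy).symm
    · exact absurd hx (hLM k i x hy)
    · exact hCM k k i x hy hx
    · exact hMM i k x hx hy
  refine ⟨φ, ?_, ?_, ?_⟩
  · intro i
    exact union_star (hB i) _ (fun j => hA4 i j.1)
      (fun j => ⟨p i j.1, Or.inl (Or.inl (hpL i j.1)), hA2 i j.1⟩)
  · rintro i k x (hx | hx) (hy | hy)
    · exact hBB i k x hx hy
    · obtain ⟨j, hj⟩ := Set.mem_iUnion.1 hy
      exact hBA i k j.1 x j.2 hx hj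
    · obtain ⟨j, hj⟩ := Set.mem_iUnion.1 hx
      exact (hBA k i j.1 x j.2 hy hj).symm
    · obtain ⟨j, hj⟩ := Set.mem_iUnion.1 hx
      obtain ⟨l, hl⟩ := Set.mem_iUnion.1 hy
      exact (hCC i j.1 k l.1 x (hA1 _ _ hj) (hA1 _ _ hl)).1
  · have key : ∀ i k, i < k → ∃ a ∈ φ i, ∃ b ∈ φ k, G.Adj a b := by
      intro i k hik
      obtain ⟨a, ha, b, hb, hab⟩ := hA5 i k
      exact ⟨a, Or.inr (Set.mem_iUnion.2 ⟨⟨k, hik⟩, ha⟩), b, Or.inl (Or.inr hb), hab⟩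
    intro i k hik
    have hne : i ≠ k := hik
    rcases lt_or_gt_of_ne hne with h | h
    · exact key i k h
    · obtain ⟨a, ha, b, hb, hab⟩ := key k i h
      exact ⟨b, hb, a, ha, hab.symm⟩

/-- **U5.** -/
theorem u5 (D : Type u) [Group D] (H : Subgroup D) (hn : H.Normal) (hfg : H.FG)
    (hi : ¬ H.FiniteIndex) (a b : D) (ha : a ∈ H) (hb : b ∈ H) (hab : a * b = b * a)
    (hind : ∀ i j : ℤ, a ^ i * b ^ j = 1 → i = 0 ∧ j = 0) (S : Set D) (hS : IsGen S) :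
    KN (cay S) := by
  obtain ⟨F, hF⟩ := hfg
  obtain ⟨P, hPf, hPc, hP1, hPF⟩ := exists_conn_fin hS ((F : Set D) ∪ {a, b})
    (F.finite_toSet.union (Set.toFinite _))
  have hPa : a ∈ P := hPF (Or.inr (by simp))
  have hPb : b ∈ P := hPF (Or.inr (by simp))
  have hHP : ∀ h ∈ H, ∃ B : Set D, B.Finite ∧ Conn (cay S) B ∧ (1 : D) ∈ B ∧ h ∈ B ∧
      ∀ x ∈ B, ∃ g ∈ H, ∃ p ∈ P, x = g * p := by
    intro h hh
    rw [← hF] at hh
    induction hh using Subgroup.closure_induction with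
    | mem x hx =>
      exact ⟨P, hPf, hPc, hP1, hPF (Or.inl hx), fun y hy => ⟨1, H.one_mem, y, hy, by simp⟩⟩
    | one => exact ⟨P, hPf, hPc, hP1, hP1, fun y hy => ⟨1, H.one_mem, y, hy, by simp⟩⟩
    | mul x y hx _ ih1 ih2 =>
      obtain ⟨B1, f1, c1, o1, m1, s1⟩ := ih1
      obtain ⟨B2, f2, c2, o2, m2, s2⟩ := ih2
      refine ⟨B1 ∪ tr x B2, f1.union (tr_fin _ f2), union_meet c1 (tr_conn hS _ c2) m1 ?_,
        Or.inl o1, Or.inr ?_, ?_⟩
      · rw [mem_tr, inv_mul_cancel]; exact o2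
      · rw [mem_tr, inv_mul_cancel_left]; exact m2
      · rintro z (hz | hz)
        · exact s1 z hz
        · obtain ⟨g, hg, p, hp, e⟩ := s2 _ hz
          refine ⟨x * g, H.mul_mem (hF ▸ hx) hg, p, hp, ?_⟩
          rw [mul_assoc, ← e, mul_inv_cancel_left]
    | inv x hx ih =>
      obtain ⟨B1, f1, c1, o1, m1, s1⟩ := ih
      refine ⟨tr x⁻¹ B1, tr_fin _ f1, tr_conn hS _ c1, ?_, ?_, ?_⟩
      · rw [mem_tr, inv_inv, mul_one]; exact m1
      · rw [mem_tr, inv_inv, mul_inv_cancel]; exact o1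
      · intro z hz
        obtain ⟨g, hg, p, hp, e⟩ := s1 _ hz
        refine ⟨x⁻¹ * g, H.mul_mem (H.inv_mem (hF ▸ hx)) hg, p, hp, ?_⟩
        rw [mul_assoc, ← e, inv_inv, inv_mul_cancel_left]
  obtain ⟨y, hy⟩ := exists_far H hi (Set.image2 (fun p q => p * q⁻¹) P P) (hPf.image2 _ hPf)
  obtain ⟨B, hBf, hBc, hB1, hBb, hBH⟩ := hHP (y⁻¹ * b * y) (by
    have := hn.conj_mem b hb y⁻¹
    rwa [inv_inv] at this)
  obtain ⟨c, hcf, hcc, hc1, hcy⟩ := exists_conn hS y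
  -- powers
  have hcom : ∀ i j : ℤ, b ^ j * a ^ i = a ^ i * b ^ j := by
    intro i j
    exact ((show Commute b a from hab.symm).zpow_zpow j i).eq
  have hI : Function.Injective (fun p : ℤ × ℤ => a ^ p.1 * b ^ p.2) := by
    rintro ⟨n, l⟩ ⟨n', l'⟩ h
    have h : a ^ n * b ^ l = a ^ n' * b ^ l' := h
    have h2 : a ^ (n - n') * b ^ (l - l') = 1 := by
      rw [zpow_sub, zpow_sub]
      calc a ^ n * (a ^ n')⁻¹ * (b ^ l * (b ^ l')⁻¹)
          = (a ^ n')⁻¹ * (a ^ n * b ^ l) * (b ^ l')⁻¹ := by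
            rw [← zpow_neg, ← zpow_add, ← mul_assoc, ← mul_assoc, ← zpow_add, add_comm]
        _ = 1 := by rw [h]; group
    obtain ⟨h3, h4⟩ := hind _ _ h2
    rw [Prod.mk.injEq]
    constructor <;> omega
  -- the finite set of forbidden differences
  let W : Set D := P ∪ (tr y B) ∪ c
  have hWf : W.Finite := (hPf.union (tr_fin _ hBf)).union hcf
  let E : Set D := Set.image2 (fun u v => u * v⁻¹) W W
  have hEf : E.Finite := hWf.image2 _ hWf
  obtain ⟨N, hN0, hN⟩ : ∃ N : ℕ, 0 < N ∧ ∀ n l : ℤ, ((N : ℤ) ≤ |n| ∨ (N : ℤ) ≤ |l|) →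
      a ^ n * b ^ l ∉ E := by
    have h1 : ((fun p : ℤ × ℤ => a ^ p.1 * b ^ p.2) ⁻¹' E).Finite := hEf.preimage hI.injOn
    have h2 := (h1.image (fun p : ℤ × ℤ => p.1.natAbs + p.2.natAbs)).bddAbove
    obtain ⟨M, hM⟩ := h2
    refine ⟨M + 1, Nat.succ_pos _, ?_⟩
    intro n l hn hE
    have := hM ⟨(n, l), hE, rfl⟩
    simp only at this
    rw [Int.abs_eq_natAbs, Int.abs_eq_natAbs] at hn
    rcases hn with hn | hn
    · have h5 : M + 1 ≤ n.natAbs := Int.ofNat_le.1 hn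
      omega
    · have h5 : M + 1 ≤ l.natAbs := Int.ofNat_le.1 hn
      omega
  -- the key: differences
  have key : ∀ (n l n' l' : ℤ) (u v : D), u ∈ W → v ∈ W →
      a ^ n * b ^ l * u = a ^ n' * b ^ l' * v → |n - n'| < N ∧ |l - l'| < N := by
    intro n l n' l' u v hu hv he
    by_contra hcon
    rw [not_and_or, not_lt, not_lt] at hcon
    apply hN _ _ hcon
    refine ⟨v, hv, u, hu, ?_⟩
    show v * u⁻¹ = _
    have e1 : v = (a ^ n' * b ^ l')⁻¹ * (a ^ n * b ^ l * u) := by rw [he]; group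
    rw [e1]
    have e2 : a ^ (n - n') * b ^ (l - l') = (a ^ n' * b ^ l')⁻¹ * (a ^ n * b ^ l) := by
      rw [sub_eq_neg_add, sub_eq_neg_add, zpow_add, zpow_add, mul_inv_rev]
      rw [← zpow_neg, ← zpow_neg]
      calc a ^ (-n') * a ^ n * (b ^ (-l') * b ^ l)
          = a ^ (-n') * (a ^ n * b ^ (-l')) * b ^ l := by simp only [mul_assoc]
        _ = a ^ (-n') * (b ^ (-l') * a ^ n) * b ^ l := by rw [hcom]
        _ = (a ^ (-n') * b ^ (-l')) * (a ^ n * b ^ l) := by simp only [mul_assoc]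
        _ = b ^ (-l') * a ^ (-n') * (a ^ n * b ^ l) := by rw [hcom]
    rw [e2]; group
  have hWP : ∀ p ∈ P, p ∈ W := fun p hp => Or.inl (Or.inl hp)
  have hWB : ∀ p ∈ tr y B, p ∈ W := fun p hp => Or.inl (Or.inr hp)
  have hWc : ∀ p ∈ c, p ∈ W := fun p hp => Or.inr hp
  have hgap : ∀ i k : ℕ, |(N : ℤ) * i - (N : ℤ) * k| < N → i = k := by
    intro i k h
    by_contra hik
    rw [← mul_sub, abs_mul, abs_of_nonneg (by positivity : (0 : ℤ) ≤ N)] at h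
    have : 1 ≤ |(i : ℤ) - k| := Int.one_le_abs (by omega)
    have hN1 : (0 : ℤ) < N := by exact_mod_cast hN0
    nlinarith
  let L : ℕ → Set D := fun i => ⋃ n : ℤ, tr (a ^ n * b ^ ((N : ℤ) * i)) P
  let M : ℕ → Set D := fun j => ⋃ n : ℤ, tr (a ^ ((N : ℤ) * j) * b ^ n) (tr y B)
  let C : ℕ → ℕ → Set D := fun i j => tr (a ^ ((N : ℤ) * j) * b ^ ((N : ℤ) * i)) c
  have hLmem : ∀ i x, x ∈ L i → ∃ n : ℤ, ∃ p ∈ P, x = a ^ n * b ^ ((N : ℤ) * i) * p := by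
    intro i x hx
    obtain ⟨n, hn⟩ := Set.mem_iUnion.1 hx
    exact ⟨n, _, hn, by group⟩
  have hMmem : ∀ i x, x ∈ M i → ∃ n : ℤ, ∃ p ∈ tr y B,
      x = a ^ ((N : ℤ) * i) * b ^ n * p := by
    intro i x hx
    obtain ⟨n, hn⟩ := Set.mem_iUnion.1 hx
    exact ⟨n, _, hn, by group⟩
  have hCmem : ∀ i j x, x ∈ C i j → ∃ p ∈ c,
      x = a ^ ((N : ℤ) * j) * b ^ ((N : ℤ) * i) * p := by
    intro i j x hx
    exact ⟨_, hx, by group⟩
  refine grid (G := cay S) L M C ?_ ?_ ?_ ?_ ?_ ?_ ?_ ?_ ?_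
    (fun i j => a ^ ((N : ℤ) * j) * b ^ ((N : ℤ) * i))
    (fun i j => a ^ ((N : ℤ) * j) * b ^ ((N : ℤ) * i) * y) ?_ ?_ ?_ ?_
  · intro i
    refine union_chain _ (fun n => tr_conn hS _ hPc) ?_
    intro n
    refine ⟨a ^ (n + 1) * b ^ ((N : ℤ) * i), ?_, ?_⟩
    · rw [mem_tr]
      have : (a ^ n * b ^ ((N : ℤ) * i))⁻¹ * (a ^ (n + 1) * b ^ ((N : ℤ) * i)) = a := by
        have h1 : a * b ^ ((N : ℤ) * i) = b ^ ((N : ℤ) * i) * a := by
          have := hcom 1 ((N : ℤ) * i)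
          rw [zpow_one] at this
          exact this.symm
        rw [zpow_add_one, mul_assoc (a ^ n) a, h1]
        group
      rw [this]; exact hPa
    · rw [mem_tr, inv_mul_cancel]; exact hP1
  · intro i
    refine union_chain _ (fun n => tr_conn hS _ (tr_conn hS _ hBc)) ?_
    intro n
    refine ⟨a ^ ((N : ℤ) * i) * b ^ (n + 1) * y, ?_, ?_⟩
    · rw [mem_tr, mem_tr]
      have : y⁻¹ * ((a ^ ((N : ℤ) * i) * b ^ n)⁻¹ * (a ^ ((N : ℤ) * i) * b ^ (n + 1) * y)) =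
          y⁻¹ * b * y := by
        rw [zpow_add_one]; group
      rw [this]; exact hBb
    · rw [mem_tr, inv_mul_cancel_left, mem_tr, inv_mul_cancel]; exact hB1
  · intro i j
    exact tr_conn hS _ hcc
  · intro i j x hx hx'
    obtain ⟨n, p, hp, e⟩ := hLmem i x hx
    obtain ⟨n', p', hp', e'⟩ := hLmem j x hx'
    exact hgap i j (key _ _ _ _ p p' (hWP _ hp) (hWP _ hp') (e.symm.trans e')).2
  · intro i j x hx hx'
    obtain ⟨n, p, hp, e⟩ := hMmem i x hx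
    obtain ⟨n', p', hp', e'⟩ := hMmem j x hx'
    exact hgap i j (key _ _ _ _ p p' (hWB _ hp) (hWB _ hp') (e.symm.trans e')).1
  · intro i j x hx hx'
    obtain ⟨n, p, hp, e⟩ := hLmem i x hx
    obtain ⟨n', p', hp', e'⟩ := hMmem j x hx'
    obtain ⟨g, hg, q, hq, e2⟩ := hBH _ hp'
    -- `p' = y * g * q`
    have e3 : p' = y * g * q := by rw [mul_assoc, ← e2, mul_inv_cancel_left]
    have e4 : a ^ n * b ^ ((N : ℤ) * i) * p = a ^ ((N : ℤ) * j) * b ^ n' * (y * g * q) := by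
      rw [← e3, ← e, ← e']
    -- `y = k * (p * q⁻¹)`
    let k : D := (a ^ ((N : ℤ) * j) * b ^ n')⁻¹ * (a ^ n * b ^ ((N : ℤ) * i))
    have hk : k ∈ H := H.mul_mem (H.inv_mem (H.mul_mem (H.zpow_mem ha _) (H.zpow_mem hb _)))
      (H.mul_mem (H.zpow_mem ha _) (H.zpow_mem hb _))
    have e5 : y * g = k * (p * q⁻¹) := by
      show _ = (a ^ ((N : ℤ) * j) * b ^ n')⁻¹ * (a ^ n * b ^ ((N : ℤ) * i)) * (p * q⁻¹)
      calc y * g = (a ^ ((N : ℤ) * j) * b ^ n')⁻¹ *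
            (a ^ ((N : ℤ) * j) * b ^ n' * (y * g * q)) * q⁻¹ := by group
        _ = _ := by rw [← e4]; group
    have hc2 := hn.conj_mem g⁻¹ (H.inv_mem hg) y
    refine hy (y * g⁻¹ * y⁻¹ * k) (H.mul_mem hc2 hk) (p * q⁻¹) ⟨p, hp, q, hq, rfl⟩ ?_
    rw [mul_assoc (y * g⁻¹ * y⁻¹) k, ← e5]
    group
  · intro i j k x hx hx'
    obtain ⟨p, hp, e⟩ := hCmem i j x hx
    obtain ⟨n', p', hp', e'⟩ := hLmem k x hx'
    exact (hgap i k (key _ _ _ _ p p' (hWc _ hp) (hWP _ hp') (e.symm.trans e')).2).symm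
  · intro i j k x hx hx'
    obtain ⟨p, hp, e⟩ := hCmem i j x hx
    obtain ⟨n', p', hp', e'⟩ := hMmem k x hx'
    exact (hgap j k (key _ _ _ _ p p' (hWc _ hp) (hWB _ hp') (e.symm.trans e')).1).symm
  · intro i j k l x hx hx'
    obtain ⟨p, hp, e⟩ := hCmem i j x hx
    obtain ⟨p', hp', e'⟩ := hCmem k l x hx'
    have := key _ _ _ _ p p' (hWc _ hp) (hWc _ hp') (e.symm.trans e')
    exact ⟨hgap i k this.2, hgap j l this.1⟩
  · intro i j
    refine Set.mem_iUnion.2 ⟨(N : ℤ) * j, ?_⟩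
    rw [mem_tr, inv_mul_cancel]; exact hP1
  · intro i j
    show _ ∈ tr _ c
    rw [mem_tr, inv_mul_cancel]; exact hc1
  · intro i j
    show _ ∈ tr _ c
    rw [mem_tr, inv_mul_cancel_left]; exact hcy
  · intro i j
    refine Set.mem_iUnion.2 ⟨(N : ℤ) * i, ?_⟩
    rw [mem_tr, inv_mul_cancel_left, mem_tr, inv_mul_cancel]; exact hB1

end Pool.Agent.Helper41.UN5
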